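import Pool.Agent.K3h56.E2.Stm

/-! # E2 project (helper56, MP_dd9835_nt): brick BLOCK (helper17) -/

set_option autoImplicit false

namespace Pool.Agent.K3h17.E2

open Pool.Agent.K3h56.E2

theorem t_BLOCK : S_BLOCK := by
  intro ι _ _ p _ M hM
  rw [Matrix.twoBlockTriangular_det (Matrix.of M) p (fun i hi j hj => by
    refine hM i j hi fun h => hi ?_
    rw [h]
    exact hj)]
  congr 1
  have h1 : Matrix.toSquareBlockProp (Matrix.of M) (fun i => ¬ p i) =
      Matrix.diagonal (fun a : {a // ¬ p a} => M a a) := by
    ext a b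
    by_cases hab : a = b
    · subst hab
      rw [Matrix.diagonal_apply_eq]
      rfl
    · rw [Matrix.diagonal_apply_ne _ hab]
      exact hM a b a.2 fun h => hab (Subtype.ext h)
  rw [h1, Matrix.det_diagonal]

end Pool.Agent.K3h17.E2
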