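import Pool.Agent.K3h56.E2.Stm
import Pool.Agent.K3h25.RS.Trans
import Pool.Agent.K3h30.RS.Act

/-! # E2 project (helper56, MP_dd9835_nt): brick PUNIT (helper17) -/

set_option autoImplicit false

open NumberField IsDedekindDomain
open scoped Pointwise nonZeroDivisors

noncomputable section

namespace Pool.Agent.K3h17.E2

open Pool.Agent.K3h56.E2 Pool.Agent.K3h30.RS Pool.Agent.K3h25.RS

section

variable {F H G : Type} [Field F] [NumberField F] [Field H] [NumberField H] [Algebra F H]
  [CommGroup G] [Finite G] [MulSemiringAction G H] [IsGaloisGroup G F H]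

omit [Finite G] in
theorem fixes_of_val {H : Type} [Field H] [NumberField H] [MulSemiringAction G H]
    {w : HeightOneSpectrum (𝓞 H)} {γ : G}
    (h : ∀ x : H, w.valuation H (γ • x) = w.valuation H x) : Fixes (Sum.inr w : Place H) γ := by
  intro x
  change NumberField.HeightOneSpectrum.adicAbv H w (γ • x) =
    NumberField.HeightOneSpectrum.adicAbv H w x
  rw [NumberField.HeightOneSpectrum.adicAbv_def, NumberField.HeightOneSpectrum.adicAbv_def, h]

/-- the norm of a prime ideal with trivial decomposition group -/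
theorem norm_split (v : HeightOneSpectrum (𝓞 F)) (w : HeightOneSpectrum (𝓞 H))
    (hw : Above {v} w) (hfix : ∀ γ : G, Fixes (Sum.inr w : Place H) γ → γ = 1) :
    Ideal.absNorm w.asIdeal = Ideal.absNorm v.asIdeal := by
  have := w.isPrime
  have := v.isPrime
  have := v.isMaximal
  have hlies : w.asIdeal.LiesOver v.asIdeal := ⟨(above_singleton.1 hw).symm⟩
  have hfin : Finite (𝓞 F ⧸ v.asIdeal) := Ideal.finiteQuotientOfFreeOfNeBot _ v.ne_bot
  have hfin' : Finite v.asIdeal.ResidueField :=
    Finite.of_surjective _ (v.asIdeal.bijective_algebraMap_quotient_residueField).2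
  have h1 := Ideal.card_stabilizer_eq_card_inertia_mul_finrank (G := G) v.asIdeal w.asIdeal
  have h2 : Nat.card (MulAction.stabilizer G w.asIdeal) = 1 := by
    rw [Subgroup.card_eq_one, eq_bot_iff]
    intro γ hγ
    rw [Subgroup.mem_bot]
    refine hfix γ (fixes_of_val fun x => ?_)
    refine (val_aut w w γ (fun y => ?_) x).symm
    rw [MulAction.mem_stabilizer_iff] at hγ
    conv_rhs => rw [← hγ]
    exact Ideal.smul_mem_pointwise_smul_iff.symm
  rw [h2] at h1
  have h3 : w.asIdeal.inertiaDeg (𝓞 F) = 1 := Nat.dvd_one.1 (Dvd.intro_left _ h1.symm)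
  have h4 := Ideal.absNorm_pow_inertiaDeg v.asIdeal w.asIdeal
  rw [h3, pow_one] at h4
  exact h4.symm

end

/-- an element with no other prime divisors than `w` -/
theorem exists_gen {H : Type} [Field H] [NumberField H] (w : HeightOneSpectrum (𝓞 H)) :
    ∃ y : 𝓞 H, y ≠ 0 ∧ y ∈ w.asIdeal ∧ ∀ w' : HeightOneSpectrum (𝓞 H), w' ≠ w →
      y ∉ w'.asIdeal := by
  classical
  have hI : w.asIdeal ∈ (Ideal (𝓞 H))⁰ := mem_nonZeroDivisors_of_ne_zero w.ne_bot
  set n : ℕ := Nat.card (ClassGroup (𝓞 H)) with hn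
  have hn0 : 0 < n := Nat.card_pos
  have h1 : (ClassGroup.mk0 ⟨w.asIdeal, hI⟩ : ClassGroup (𝓞 H)) ^ n = 1 := pow_card_eq_one'
  rw [← map_pow] at h1
  have hI' : w.asIdeal ^ n ∈ (Ideal (𝓞 H))⁰ := pow_mem hI n
  have h2 : (⟨w.asIdeal, hI⟩ : (Ideal (𝓞 H))⁰) ^ n = ⟨w.asIdeal ^ n, hI'⟩ := rfl
  rw [h2, ClassGroup.mk0_eq_one_iff] at h1
  obtain ⟨y, hy⟩ := h1.principal
  rw [Ideal.submodule_span_eq] at hy
  refine ⟨y, ?_, ?_, ?_⟩
  · rintro rfl
    rw [Ideal.span_singleton_eq_bot.2 rfl] at hy
    exact pow_ne_zero n w.ne_bot hy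
  · have h3 : y ∈ w.asIdeal ^ n := by
      rw [hy]
      exact Ideal.mem_span_singleton_self y
    exact Ideal.pow_le_self hn0.ne' h3
  · intro w' hw' hy'
    apply hw'
    have := w'.isPrime
    have h3 : w.asIdeal ^ n ≤ w'.asIdeal := by
      rw [hy, Ideal.span_singleton_le_iff_mem]
      exact hy'
    have h4 : w.asIdeal ≤ w'.asIdeal := Ideal.IsPrime.le_of_pow_le h3
    exact (HeightOneSpectrum.ext (w.isMaximal.eq_of_le w'.isPrime.ne_top h4)).symm

theorem t_PUNIT : S_PUNIT := by
  intro F H G _ _ _ _ _ _ _ _ _ χ hχ v w hw hfix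
  classical
  have := Fintype.ofFinite G
  obtain ⟨y, hy0, hyw, hyw'⟩ := exists_gen w
  have hval : ∀ w' : HeightOneSpectrum (𝓞 H), w' ≠ w → w'.valuation H (y : H) = 1 := by
    intro w' hw'
    have h1 := hyw' w' hw'
    have h2 : w'.valuation H (algebraMap (𝓞 H) H y) = 1 := by
      rw [HeightOneSpectrum.valuation_of_algebraMap,
        HeightOneSpectrum.intValuation_eq_one_iff_mem_primeCompl]
      exact h1
    exact h2
  have hyH : (y : H) ≠ 0 := by
    intro h
    apply hy0
    exact_mod_cast h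
  set Y : Hˣ := Units.mk0 (y : H) hyH with hY
  -- the exponents
  set ε : G → ℤ := fun g => if χ g = 1 then 1 else -1 with hε
  have hsq : ∀ g : G, χ g = 1 ∨ χ g = -1 := by
    intro g
    have h1 := hχ g
    have h2 : ((χ g : ℂˣ) : ℂ) * ((χ g : ℂˣ) : ℂ) = 1 := by
      rw [← Units.val_mul, h1, Units.val_one]
    rcases mul_self_eq_one_iff.1 h2 with h3 | h3
    · exact Or.inl (Units.ext h3)
    · exact Or.inr (Units.ext (by rw [h3, Units.val_neg, Units.val_one]))
  have hne : (-1 : ℂˣ) ≠ 1 := by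
    intro h
    have h1 := congrArg (fun u : ℂˣ => (u : ℂ)) h
    norm_num at h1
  have hε1 : ∀ k g : G, χ k = 1 → ε (k * g) = ε g := by
    intro k g hk
    simp only [hε, map_mul, hk, one_mul]
  have hε2 : ∀ k g : G, χ k ≠ 1 → ε (k * g) = -ε g := by
    intro k g hk
    have hk' := (hsq k).resolve_left hk
    rcases hsq g with h1 | h1
    · simp only [hε, map_mul, hk', h1, mul_one, if_pos, if_neg hne]
    · simp only [hε, map_mul, hk', h1, neg_mul_neg, one_mul, if_pos, if_neg hne, neg_neg]
  have hε0 : ε 1 = 1 := by simp [hε]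
  set x : Hˣ := ∏ g : G, act g Y ^ ε g with hx
  have hact : ∀ k : G, act k x = ∏ g : G, act (k * g) Y ^ ε g := by
    intro k
    have h1 : act k x = Units.map (MulSemiringAction.toRingHom G H k : H →* H) x := rfl
    rw [h1, hx, map_prod]
    refine Finset.prod_congr rfl fun g _ => ?_
    rw [map_zpow, act_mul]
    rfl
  -- the valuations of the conjugates
  have hconj : ∀ (w' : HeightOneSpectrum (𝓞 H)) (g : G),
      (¬ Above {v} w' ∨ (w' = w ∧ g ≠ 1)) → w'.valuation H (g • (y : H)) = 1 := by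
    intro w' g h
    obtain ⟨v', hv'⟩ := exists_above (F := F) w'
    obtain ⟨w'', h1, h2⟩ := (t_TRANS F H G v' w' hv').1 g
    rw [← h2]
    refine hval w'' fun h3 => ?_
    subst h3
    rcases h with h | ⟨rfl, hg⟩
    · have h4 : v' = v := HeightOneSpectrum.ext
        ((above_singleton.1 h1).symm.trans (above_singleton.1 hw))
      rw [h4] at hv'
      exact h hv'
    · exact hg (hfix g (fixes_of_val fun z => (h2 z).symm))
  refine ⟨x, fun k hk => ?_, fun k hk => ?_, fun w' hw' => ?_, ?_⟩
  · rw [hact, hx]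
    refine Fintype.prod_equiv (Equiv.mulLeft k) _ _ fun g => ?_
    rw [Equiv.coe_mulLeft, hε1 k g hk]
  · rw [hact, hx, ← Finset.prod_inv_distrib]
    refine Fintype.prod_equiv (Equiv.mulLeft k) _ _ fun g => ?_
    rw [Equiv.coe_mulLeft, hε2 k g hk, zpow_neg, inv_inv]
  · have h1 : (x : H) = ∏ g : G, (g • (y : H)) ^ ε g := by
      rw [hx, Units.coe_prod]
      refine Finset.prod_congr rfl fun g _ => ?_
      rw [Units.val_zpow_eq_zpow_val]
      rfl
    rw [h1, map_prod]
    refine Finset.prod_eq_one fun g _ => ?_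
    rw [map_zpow₀, hconj w' g (Or.inl hw'), one_zpow]
  · have h1 : (x : H) = ∏ g : G, (g • (y : H)) ^ ε g := by
      rw [hx, Units.coe_prod]
      refine Finset.prod_congr rfl fun g _ => ?_
      rw [Units.val_zpow_eq_zpow_val]
      rfl
    have h2 : w.valuation H (x : H) = w.valuation H (y : H) := by
      rw [h1, map_prod, Finset.prod_eq_single 1]
      · rw [map_zpow₀, hε0, zpow_one, one_smul]
      · intro g _ hg
        rw [map_zpow₀, hconj w g (Or.inr ⟨rfl, hg⟩), one_zpow]
      · intro h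
        exact absurd (Finset.mem_univ _) h
    have h3 : w.valuation H (y : H) < 1 := by
      have h4 : w.valuation H (algebraMap (𝓞 H) H y) < 1 := by
        rw [HeightOneSpectrum.valuation_of_algebraMap,
          HeightOneSpectrum.intValuation_lt_one_iff_mem]
        exact hyw
      exact h4
    have h4 : w.valuation H (y : H) ≠ 0 := (Valuation.ne_zero_iff _).2 hyH
    set k : ℤ := Multiplicative.toAdd (WithZero.unzero h4) with hk
    have hk0 : k ≠ 0 := by
      intro h5
      have h6 : WithZero.unzero h4 = 1 := by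
        rw [hk] at h5
        exact toAdd_eq_zero.1 h5
      have h7 := WithZero.coe_unzero h4
      rw [h6, WithZero.coe_one] at h7
      rw [← h7] at h3
      exact lt_irrefl _ h3
    refine ⟨(k : ℚ), by exact_mod_cast hk0, ?_⟩
    change Real.log (NumberField.HeightOneSpectrum.adicAbv H w (x : H)) = _
    rw [NumberField.HeightOneSpectrum.adicAbv_def, h2,
      WithZeroMulInt.toNNReal_neg_apply _ h4, ← hk, NNReal.coe_zpow, Real.log_zpow,
      ← norm_split (F := F) v w hw hfix]
    simp

end Pool.Agent.K3h17.E2
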