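import Pool.Agent.K3h17.E2.RankAlg
import Pool.Agent.K3h17.E2.Punit
import Pool.Agent.H39R3.Tor.SUnit
import Pool.Agent.K3h56.E2.Stm2
import Pool.Agent.K3h25.E2.Loc
import Pool.Agent.K3h50.E2.Inf

/-! The ranks of the group of `S`-units and of its minus part. -/

set_option autoImplicit false

open NumberField IsDedekindDomain Module

noncomputable section

namespace Pool.Agent.K3h17.E2

open Pool.Agent.K3h30.RS Pool.Agent.K3h56.E2

variable (K : Type) [Field K] [NumberField K]

theorem SU_eq (A : Set (HeightOneSpectrum (𝓞 K))) : SU K A = A.unit K := by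
  ext x
  exact Iff.rfl

theorem SU_finite (A : Finset (HeightOneSpectrum (𝓞 K))) :
    Module.Finite ℤ (Additive (SU K (A : Set (HeightOneSpectrum (𝓞 K))))) := by
  have h0 := Pool.Agent.H39R3.Tor.sunit_fg K (A : Set (HeightOneSpectrum (𝓞 K))) A.finite_toSet
  rw [← SU_eq] at h0
  have h1 := (Group.fg_iff_subgroup_fg _).2 h0
  have h2 : AddGroup.FG (Additive (SU K (A : Set (HeightOneSpectrum (𝓞 K))))) :=
    GroupFG.iff_add_fg.1 h1
  exact Module.Finite.iff_addGroup_fg.2 h2

/-- the rank of the group of the `A`-units -/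
theorem finrank_SU (A : Finset (HeightOneSpectrum (𝓞 K))) :
    finrank ℤ (Additive (SU K (A : Set (HeightOneSpectrum (𝓞 K))))) + 1 =
      Fintype.card (InfinitePlace K) + A.card := by
  classical
  have := SU_finite K A
  -- the valuations in `A`
  let ψ0 : Additive (SU K (A : Set (HeightOneSpectrum (𝓞 K)))) →+ (A → ℤ) :=
    { toFun := fun x v => Multiplicative.toAdd (v.1.valuationOfNeZero (Additive.toMul x).1)
      map_zero' := by
        funext v
        simp
      map_add' := by
        intro x y
        funext v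
        simp }
  let ψ := ψ0.toIntLinearMap
  -- the units
  let θ0 : Additive (𝓞 K)ˣ →+ Additive (SU K (A : Set (HeightOneSpectrum (𝓞 K)))) :=
    { toFun := fun u => Additive.ofMul ⟨Units.map (algebraMap (𝓞 K) K : 𝓞 K →* K) (Additive.toMul u),
        fun v _ => by
          have h1 := HeightOneSpectrum.valuation_of_unit_eq (K := K) v (Additive.toMul u)
          rw [← HeightOneSpectrum.valuationOfNeZero_eq, h1]
          rfl⟩
      map_zero' := by
        apply Additive.toMul.injective
        apply Subtype.ext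
        simp
      map_add' := by
        intro x y
        apply Additive.toMul.injective
        apply Subtype.ext
        simp }
  let θ := θ0.toIntLinearMap
  have hθ : Function.Injective θ := by
    intro a b hab
    apply Additive.toMul.injective
    apply Units.ext
    apply FaithfulSMul.algebraMap_injective (𝓞 K) K
    exact congrArg (fun z : Additive (SU K (A : Set (HeightOneSpectrum (𝓞 K)))) =>
      (((Additive.toMul z).1 : Kˣ) : K)) hab
  have hker : LinearMap.range θ = LinearMap.ker ψ := by
    apply le_antisymm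
    · rintro x ⟨u, rfl⟩
      rw [LinearMap.mem_ker]
      funext v
      exact congrArg Multiplicative.toAdd
        (HeightOneSpectrum.valuation_of_unit_eq (K := K) v.1 (Additive.toMul u))
    · intro x hx
      have hx1 : ∀ v : HeightOneSpectrum (𝓞 K), v.valuation K ((Additive.toMul x).1 : K) = 1 := by
        intro v
        by_cases hv : v ∈ A
        · have h1 : ψ x = 0 := hx
          have h2 := congrFun h1 ⟨v, hv⟩
          have h3 : v.valuationOfNeZero (Additive.toMul x).1 = 1 := h2
          rw [← HeightOneSpectrum.valuationOfNeZero_eq, h3]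
          rfl
        · exact (Additive.toMul x).2 v hv
      obtain ⟨a, ha⟩ := HeightOneSpectrum.mem_integers_of_valuation_le_one (R := 𝓞 K) K
        ((Additive.toMul x).1 : K) (fun v => (hx1 v).le)
      obtain ⟨b, hb⟩ := HeightOneSpectrum.mem_integers_of_valuation_le_one (R := 𝓞 K) K
        ((Additive.toMul x).1 : K)⁻¹ (fun v => by rw [map_inv₀, hx1 v, inv_one])
      have hx0 : ((Additive.toMul x).1 : K) ≠ 0 := Units.ne_zero _
      have hab : a * b = 1 := by
        apply FaithfulSMul.algebraMap_injective (𝓞 K) K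
        rw [map_mul, ha, hb, map_one, mul_inv_cancel₀ hx0]
      refine ⟨Additive.ofMul ⟨a, b, hab, by rw [mul_comm]; exact hab⟩, ?_⟩
      apply Additive.toMul.injective
      apply Subtype.ext
      apply Units.ext
      exact ha
  have h1 := range_add_ker ψ
  have h2 : finrank ℤ (LinearMap.ker ψ) = Units.rank K := by
    rw [← hker, ← Units.finrank_eq]
    exact (LinearEquiv.ofInjective θ hθ).finrank_eq.symm
  have h3 : finrank ℤ (LinearMap.range ψ) = A.card := by
    have hex : ∀ P : A, ∃ y : SU K (A : Set (HeightOneSpectrum (𝓞 K))),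
        ψ (Additive.ofMul y) P ≠ 0 ∧ ∀ Q : A, Q ≠ P → ψ (Additive.ofMul y) Q = 0 := by
      intro P
      obtain ⟨y, hy0, hyP, hyQ⟩ := exists_gen P.1
      have hy1 : algebraMap (𝓞 K) K y ≠ 0 := by
        rw [Ne, map_eq_zero_iff _ (FaithfulSMul.algebraMap_injective (𝓞 K) K)]
        exact hy0
      have hv : ∀ Q : HeightOneSpectrum (𝓞 K), Q ≠ P.1 → Q.valuation K (algebraMap (𝓞 K) K y) = 1 := by
        intro Q hQ
        rw [HeightOneSpectrum.valuation_of_algebraMap]
        exact HeightOneSpectrum.intValuation_eq_one_iff.2 (hyQ Q hQ)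
      refine ⟨⟨Units.mk0 _ hy1, fun Q hQ => hv Q ?_⟩, ?_, ?_⟩
      · rintro rfl
        exact hQ P.2
      · intro h4
        have h5 : P.1.valuationOfNeZero (Units.mk0 _ hy1) = 1 := h4
        have h6 : P.1.valuation K (algebraMap (𝓞 K) K y) = 1 := by
          have := HeightOneSpectrum.valuationOfNeZero_eq P.1 (Units.mk0 _ hy1)
          rw [h5] at this
          exact this.symm
        rw [HeightOneSpectrum.valuation_of_algebraMap,
          HeightOneSpectrum.intValuation_eq_one_iff] at h6
        exact h6 hyP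
      · intro Q hQ
        have h6 := hv Q.1 (fun h => hQ (Subtype.ext h))
        have h5 : Q.1.valuationOfNeZero (Units.mk0 _ hy1) = 1 := by
          have := HeightOneSpectrum.valuationOfNeZero_eq Q.1 (Units.mk0 _ hy1)
          rw [Units.val_mk0, h6] at this
          exact_mod_cast this
        exact h5
    choose y hy1 hy2 using hex
    have hli : LinearIndependent ℤ (fun P : A => (⟨ψ (Additive.ofMul (y P)),
        LinearMap.mem_range_self ψ _⟩ : LinearMap.range ψ)) := by
      rw [Fintype.linearIndependent_iff]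
      intro g hg Q
      have h4 := congrArg (fun z : LinearMap.range ψ => (z : A → ℤ) Q) hg
      simp only [Submodule.coe_sum, Submodule.coe_smul, Finset.sum_apply, Pi.smul_apply,
        Submodule.coe_zero, Pi.zero_apply] at h4
      rw [Finset.sum_eq_single Q] at h4
      · rcases smul_eq_zero.1 h4 with h5 | h5
        · exact h5
        · exact absurd h5 (hy1 Q)
      · intro P _ hPQ
        rw [hy2 P Q hPQ.symm, smul_zero]
      · intro h
        exact absurd (Finset.mem_univ Q) h
    have h4 := hli.fintype_card_le_finrank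
    have h5 := (LinearMap.range ψ).finrank_le
    rw [Module.finrank_fintype_fun_eq_card] at h5
    rw [Fintype.card_coe] at h4 h5
    omega
  have h4 : Units.rank K + 1 = Fintype.card (InfinitePlace K) := by
    have : 0 < Fintype.card (InfinitePlace K) := Fintype.card_pos
    unfold Units.rank
    omega
  omega

theorem neg_one_facts (K : Type) [Field K] [NumberField K] :
    (-1 : Kˣ) ≠ 1 ∧ (-1 : Kˣ) * (-1) = 1 ∧ ∀ x : Kˣ, x * x = 1 → x = 1 ∨ x = -1 := by
  refine ⟨?_, by simp, ?_⟩
  · intro h
    have h1 : (-1 : K) = 1 := by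
      have := congrArg (fun z : Kˣ => (z : K)) h
      simpa using this
    have h2 : (2 : K) = 0 := by linear_combination -h1
    exact two_ne_zero h2
  · intro x hx
    have h1 : (x : K) * x = 1 := by
      have := congrArg (fun z : Kˣ => (z : K)) hx
      simpa using this
    rcases mul_self_eq_one_iff.1 h1 with h | h
    · left
      exact Units.ext h
    · right
      exact Units.ext (by simpa using h)

theorem neg_one_mem (A : Set (HeightOneSpectrum (𝓞 K))) : (-1 : Kˣ) ∈ SU K A := by
  intro w _
  simp

theorem t_RANK1 : S_RANK1 := by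
  intro F _ _ S
  have := SU_finite F S
  obtain ⟨h1, h2, h3⟩ := neg_one_facts F
  rw [relIndex_sq (SU F S) (-1) (neg_one_mem F _) h1 h2 h3, finrank_SU]

section quad

variable {F K : Type} [Field F] [NumberField F] [Field K] [NumberField K] [Algebra F K]
  {τ : K ≃ₐ[F] K}

theorem tau_tau (h : Quad F K τ) (x : K) : τ (τ x) = x := by
  have h1 : ∀ z : K, (τ * τ) z = τ (τ z) := fun _ => rfl
  rcases Pool.Agent.K3h50.E2.aut_eq h (τ * τ) with h2 | h2
  · rw [← h1, h2]
    rfl
  · exfalso
    apply h.ne
    apply AlgEquiv.ext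
    intro z
    apply τ.injective
    rw [← h1, h2]
    rfl

theorem fixed_of_tau (h : Quad F K τ) (x : K) (hx : τ x = x) : ∃ y : F, algebraMap F K y = x := by
  have hG := Pool.Agent.K3h50.E2.isGalois_of_quad h
  have hfin : FiniteDimensional F K := FiniteDimensional.of_finrank_pos (by rw [h.deg]; norm_num)
  have h1 : x ∈ Set.range (algebraMap F K) := by
    rw [IsGalois.mem_range_algebraMap_iff_fixed]
    intro σ
    rcases Pool.Agent.K3h50.E2.aut_eq h σ with h2 | h2
    · rw [h2]
      rfl
    · rw [h2, hx]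
  exact h1

/-- the primes of `K` over a prime of `F`, and `τ` -/
theorem exists_conj (h : Quad F K τ) (v : HeightOneSpectrum (𝓞 F)) (w : HeightOneSpectrum (𝓞 K))
    (hw : Above {v} w) : ∃ w' : HeightOneSpectrum (𝓞 K), Above {v} w' ∧
      ∀ x : K, w.valuation K (τ x) = w'.valuation K x := by
  obtain ⟨h1, h2⟩ := Pool.Agent.K3h25.E2.t_LOC F K τ h v
  by_cases hl : loc K v = 1
  · obtain ⟨P, P', -, hQ, hv, -⟩ := h1 hl
    rcases (hQ w).1 hw with rfl | rfl
    · exact ⟨P', (hQ P').2 (Or.inr rfl), fun x => (hv x).symm⟩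
    · refine ⟨P, (hQ P).2 (Or.inl rfl), fun x => ?_⟩
      rw [hv, tau_tau h]
  · obtain ⟨P, hQ, hv, -⟩ := h2 hl
    have h3 := (hQ w).1 hw
    subst h3
    exact ⟨w, hw, fun x => (hv x).symm⟩

theorem exists_over (h : Quad F K τ) (v : HeightOneSpectrum (𝓞 F)) :
    ∃ w : HeightOneSpectrum (𝓞 K), Above {v} w := by
  obtain ⟨h1, h2⟩ := Pool.Agent.K3h25.E2.t_LOC F K τ h v
  by_cases hl : loc K v = 1
  · obtain ⟨P, P', -, hQ, -⟩ := h1 hl
    exact ⟨P, (hQ P).2 (Or.inl rfl)⟩
  · obtain ⟨P, hQ, -⟩ := h2 hl
    exact ⟨P, (hQ P).2 rfl⟩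

theorem not_mem_iff {S : Finset (HeightOneSpectrum (𝓞 F))} {A : Finset (HeightOneSpectrum (𝓞 K))}
    (hA : Over S A) {v : HeightOneSpectrum (𝓞 F)} {w : HeightOneSpectrum (𝓞 K)}
    (hw : Above {v} w) : w ∉ A ↔ v ∉ S := by
  rw [not_iff_not, hA w]
  constructor
  · rintro ⟨v', hv', hw'⟩
    have h1 : v' = v := HeightOneSpectrum.ext
      ((above_singleton.1 hw').symm.trans (above_singleton.1 hw))
    rw [← h1]
    exact hv'
  · intro hv
    exact ⟨v, hv, hw⟩

/-- the valuation of an element of `F` at a prime of `K` -/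
theorem val_one_iff {v : HeightOneSpectrum (𝓞 F)} {w : HeightOneSpectrum (𝓞 K)}
    (hw : Above {v} w) (x : F) :
    w.valuation K (algebraMap F K x) = 1 ↔ v.valuation F x = 1 := by
  have h1 : w.asIdeal.LiesOver v.asIdeal := ⟨(above_singleton.1 hw).symm⟩
  rw [← HeightOneSpectrum.valuation_liesOver (A := 𝓞 F) (K := F) K v w x]
  have h2 := Ideal.IsDedekindDomain.ramificationIdx'_ne_zero_of_liesOver w.asIdeal v.ne_bot
  exact pow_eq_one_iff_of_nonneg zero_le h2

end quad

theorem t_RANK : S_RANK := by
  intro F K _ _ _ _ _ τ hq S A hA r hr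
  have hfK := SU_finite K A
  have hfF := SU_finite F S
  let P : Subgroup Kˣ := SU K (A : Set (HeightOneSpectrum (𝓞 K))) ⊓
    (actK τ).eqLocus (MonoidHom.id Kˣ)
  have htt : ∀ x : Kˣ, actK τ (actK τ x) = x := by
    intro x
    apply Units.ext
    exact tau_tau hq (x : K)
  have hU : ∀ x ∈ SU K (A : Set (HeightOneSpectrum (𝓞 K))),
      actK τ x ∈ SU K (A : Set (HeightOneSpectrum (𝓞 K))) := by
    intro x hx w hw
    obtain ⟨v, hv⟩ := exists_above (F := F) w
    obtain ⟨w', hw', h1⟩ := exists_conj hq v w hv
    have h2 : w' ∉ A := (not_mem_iff hA hw').2 ((not_mem_iff hA hv).1 hw)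
    have h3 : w.valuation K (τ (x : K)) = 1 := by
      rw [h1]
      exact hx w' h2
    exact h3
  obtain ⟨hN, hrk⟩ := finrank_minus (actK τ) (SU K (A : Set (HeightOneSpectrum (𝓞 K)))) P
    (SU K (A : Set (HeightOneSpectrum (𝓞 K))) ⊓ minus τ) htt hU (fun x => Iff.rfl) (fun x => Iff.rfl)
  -- the fixed part
  have hmem : ∀ y : Fˣ, y ∈ SU F (S : Set (HeightOneSpectrum (𝓞 F))) ↔
      Units.map (algebraMap F K : F →* K) y ∈ SU K (A : Set (HeightOneSpectrum (𝓞 K))) := by
    intro y
    constructor
    · intro hy w hw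
      obtain ⟨v, hv⟩ := exists_above (F := F) w
      have h1 := hy v ((not_mem_iff hA hv).1 hw)
      exact (val_one_iff hv _).2 h1
    · intro hy v hv
      obtain ⟨w, hw⟩ := exists_over hq v
      have h1 := hy w ((not_mem_iff hA hw).2 hv)
      exact (val_one_iff hw _).1 h1
  have hP : finrank ℤ (Additive P) =
      finrank ℤ (Additive (SU F (S : Set (HeightOneSpectrum (𝓞 F))))) := by
    let k0 : SU F (S : Set (HeightOneSpectrum (𝓞 F))) →* P :=
      { toFun := fun y => ⟨Units.map (algebraMap F K : F →* K) y.1, (hmem y.1).1 y.2, by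
          apply Units.ext
          exact τ.commutes (y.1 : F)⟩
        map_one' := by
          apply Subtype.ext
          exact map_one _
        map_mul' := by
          intro a b
          apply Subtype.ext
          exact map_mul _ _ _ }
    let k : Additive (SU F (S : Set (HeightOneSpectrum (𝓞 F)))) →ₗ[ℤ] Additive P :=
      (MonoidHom.toAdditive k0).toIntLinearMap
    have hk : Function.Bijective k := by
      constructor
      · intro a b hab
        apply Additive.toMul.injective
        apply Subtype.ext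
        apply Units.ext
        apply (algebraMap F K).injective
        exact congrArg (fun z : Additive P => (((Additive.toMul z : P) : Kˣ) : K)) hab
      · intro x
        have hx1 := (Additive.toMul x).2.1
        have hx2 : actK τ (Additive.toMul x).1 = (Additive.toMul x).1 := (Additive.toMul x).2.2
        have hx3 : τ ((Additive.toMul x).1 : K) = ((Additive.toMul x).1 : K) :=
          congrArg (fun z : Kˣ => (z : K)) hx2
        obtain ⟨y, hy⟩ := fixed_of_tau hq _ hx3
        have hy0 : y ≠ 0 := by
          rintro rfl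
          rw [map_zero] at hy
          exact (Additive.toMul x).1.ne_zero hy.symm
        have hyx : Units.map (algebraMap F K : F →* K) (Units.mk0 y hy0) = (Additive.toMul x).1 :=
          Units.ext hy
        refine ⟨Additive.ofMul ⟨Units.mk0 y hy0, (hmem _).2 (by rw [hyx]; exact hx1)⟩, ?_⟩
        apply Additive.toMul.injective
        apply Subtype.ext
        exact hyx
    exact (LinearEquiv.ofBijective k hk).finrank_eq.symm
  obtain ⟨h1, h2, h3⟩ := neg_one_facts K
  have hmin : (-1 : Kˣ) ∈ SU K (A : Set (HeightOneSpectrum (𝓞 K))) ⊓ minus τ := by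
    refine ⟨neg_one_mem K _, ?_⟩
    show actK τ (-1) = (-1)⁻¹
    apply Units.ext
    show τ (((-1 : Kˣ) : K)) = (((-1 : Kˣ)⁻¹ : Kˣ) : K)
    simp
  rw [relIndex_sq (SU K (A : Set (HeightOneSpectrum (𝓞 K))) ⊓ minus τ) (-1) hmin h1 h2 h3]
  have h4 := finrank_SU K A
  have h5 := finrank_SU F S
  have h6 : finrank ℤ (Additive (SU K (A : Set (HeightOneSpectrum (𝓞 K))) ⊓ minus τ :
      Subgroup Kˣ)) = r := by
    omega
  rw [h6]

end Pool.Agent.K3h17.E2
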