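import Mathlib

/-! The index of the group of squares in a finitely generated commutative group. -/

set_option autoImplicit false

namespace Pool.Agent.K3h17.E2

open Module

theorem range_add_ker {M N : Type} [AddCommGroup M] [AddCommGroup N] [Module.Finite ℤ M]
    (f : M →ₗ[ℤ] N) : finrank ℤ (LinearMap.range f) + finrank ℤ (LinearMap.ker f) = finrank ℤ M := by
  rw [← f.quotKerEquivRange.finrank_eq]
  exact Submodule.finrank_quotient_add_finrank (LinearMap.ker f)

theorem finrank_tors {M : Type} [AddCommGroup M] (h : ∀ x : M, ∃ n : ℤ, n ≠ 0 ∧ n • x = 0) :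
    finrank ℤ M = 0 := by
  apply Module.IsTorsion.finrank_eq_zero
  intro x
  obtain ⟨n, hn, hx⟩ := h x
  exact ⟨⟨n, mem_nonZeroDivisors_of_ne_zero hn⟩, hx⟩

theorem finrank_sub {M : Type} [AddCommGroup M] [Module.Finite ℤ M] (N : Submodule ℤ M)
    (h : ∀ x : M, ∃ n : ℤ, n ≠ 0 ∧ n • x ∈ N) : finrank ℤ N = finrank ℤ M := by
  have h1 := Submodule.finrank_quotient_add_finrank N
  have h2 : finrank ℤ (M ⧸ N) = 0 := by
    apply finrank_tors
    intro x
    obtain ⟨y, rfl⟩ := Submodule.Quotient.mk_surjective N x
    obtain ⟨n, hn, hy⟩ := h y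
    refine ⟨n, hn, ?_⟩
    rw [← Submodule.Quotient.mk_smul]
    exact (Submodule.Quotient.mk_eq_zero N).2 hy
  omega

theorem idx2_aux (G T : Type) [AddCommGroup G] [Module.Finite ℤ G] [AddCommGroup T] [Finite T]
    (n : ℕ) (f : G ≃+ (Fin n →₀ ℤ) × T) :
    (nsmulAddMonoidHom (α := G) 2).range.index =
      2 ^ (finrank ℤ G) * Nat.card (nsmulAddMonoidHom (α := G) 2).ker := by
  have hA := AddSubgroup.index_range_nsmul (Fin n →₀ ℤ) 2
  have hAn : finrank ℤ (Fin n →₀ ℤ) = n := by simp
  have hTi : (nsmulAddMonoidHom (α := T) 2).range.index =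
      Nat.card (nsmulAddMonoidHom (α := T) 2).ker := AddSubgroup.index_range
  have h1 : (nsmulAddMonoidHom (α := G) 2).range =
      ((nsmulAddMonoidHom (α := (Fin n →₀ ℤ)) 2).range.prod
        (nsmulAddMonoidHom (α := T) 2).range).comap (f : G →+ (Fin n →₀ ℤ) × T) := by
    ext x
    rw [AddSubgroup.mem_comap, AddSubgroup.mem_prod]
    constructor
    · rintro ⟨y, rfl⟩
      refine ⟨⟨(f y).1, ?_⟩, ⟨(f y).2, ?_⟩⟩
      · simp
      · simp
    · rintro ⟨⟨a, ha⟩, ⟨b, hb⟩⟩
      refine ⟨f.symm (a, b), ?_⟩
      apply f.injective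
      have h2 : f ((nsmulAddMonoidHom (α := G) 2) (f.symm (a, b))) = 2 • (a, b) := by
        simp
      rw [h2]
      exact Prod.ext ha hb
  have h2 : (nsmulAddMonoidHom (α := G) 2).range.index =
      (nsmulAddMonoidHom (α := (Fin n →₀ ℤ)) 2).range.index *
        (nsmulAddMonoidHom (α := T) 2).range.index := by
    rw [h1, AddSubgroup.index_comap_of_surjective _ f.surjective, AddSubgroup.index_prod]
  have h3 : Nat.card (nsmulAddMonoidHom (α := G) 2).ker =
      Nat.card (nsmulAddMonoidHom (α := T) 2).ker := by
    refine Nat.card_congr ⟨fun x => ⟨(f x.1).2, ?_⟩, fun t => ⟨f.symm (0, t.1), ?_⟩, ?_, ?_⟩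
    · have hx := x.2
      rw [AddMonoidHom.mem_ker] at hx ⊢
      have hx' : 2 • x.1 = 0 := hx
      show 2 • (f x.1).2 = 0
      rw [← Prod.smul_snd, ← map_nsmul, hx', map_zero, Prod.snd_zero]
    · have ht := t.2
      rw [AddMonoidHom.mem_ker] at ht ⊢
      have ht' : 2 • t.1 = 0 := ht
      show 2 • f.symm (0, t.1) = 0
      rw [← map_nsmul, Prod.smul_mk, ht', smul_zero]
      exact map_zero f.symm
    · intro x
      apply Subtype.ext
      have hx := x.2
      rw [AddMonoidHom.mem_ker] at hx
      have hx' : 2 • x.1 = 0 := hx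
      apply f.injective
      have h4 : 2 • (f x.1).1 = 0 := by
        rw [← Prod.smul_fst, ← map_nsmul, hx', map_zero, Prod.fst_zero]
      have h5 : (f x.1).1 = 0 := by
        have := (smul_eq_zero.1 h4)
        rcases this with h | h
        · norm_num at h
        · exact h
      show f (f.symm (0, (f x.1).2)) = f x.1
      rw [AddEquiv.apply_symm_apply, ← h5]
    · intro t
      apply Subtype.ext
      show (f (f.symm (0, t.1))).2 = t.1
      rw [AddEquiv.apply_symm_apply]
  have h4 : finrank ℤ G = n := by
    let g : G →ₗ[ℤ] (Fin n →₀ ℤ) :=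
      ((AddMonoidHom.fst (Fin n →₀ ℤ) T).comp (f : G →+ (Fin n →₀ ℤ) × T)).toIntLinearMap
    have hg : ∀ x, g x = (f x).1 := fun _ => rfl
    have h5 := range_add_ker g
    have h6 : LinearMap.range g = ⊤ := by
      rw [LinearMap.range_eq_top]
      intro a
      refine ⟨f.symm (a, 0), ?_⟩
      rw [hg, AddEquiv.apply_symm_apply]
    have h7 : finrank ℤ (LinearMap.ker g) = 0 := by
      apply finrank_tors
      rintro ⟨x, hx⟩
      have hx' : (f x).1 = 0 := hx
      refine ⟨(Nat.card T : ℤ), by exact_mod_cast Nat.card_pos.ne', ?_⟩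
      apply Subtype.ext
      apply f.injective
      show f ((Nat.card T : ℤ) • x) = f 0
      rw [map_zsmul, map_zero]
      apply Prod.ext
      · rw [Prod.smul_fst, hx', smul_zero]
        rfl
      · rw [Prod.smul_snd, natCast_zsmul]
        exact card_nsmul_eq_zero'
    rw [h6, h7, finrank_top, hAn] at h5
    omega
  rw [h2, hA, hTi, h3, h4, hAn]

theorem idx2 (G : Type) [AddCommGroup G] [Module.Finite ℤ G] :
    (nsmulAddMonoidHom (α := G) 2).range.index =
      2 ^ (finrank ℤ G) * Nat.card (nsmulAddMonoidHom (α := G) 2).ker := by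
  have hfg : AddGroup.FG G := Module.Finite.iff_addGroup_fg.1 inferInstance
  obtain ⟨n, ι, fι, p, hp, e, ⟨f⟩⟩ := AddCommGroup.equiv_free_prod_directSum_zmod G
  have : ∀ i : ι, NeZero (p i ^ e i) := fun i => ⟨pow_ne_zero _ (hp i).ne_zero⟩
  have hT : Finite (DirectSum ι fun i => ZMod (p i ^ e i)) :=
    Finite.of_equiv _ DFinsupp.equivFunOnFintype.symm
  exact idx2_aux G _ n f

/-- a subgroup `W` of a commutative group: the index of `W ^ 2` in `W` -/
theorem relIndex_sq {M : Type} [CommGroup M] (W : Subgroup M) [Module.Finite ℤ (Additive W)]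
    (e : M) (he : e ∈ W) (he1 : e ≠ 1) (he2 : e * e = 1)
    (h : ∀ x : M, x * x = 1 → x = 1 ∨ x = e) :
    (W.map (powMonoidHom 2)).relIndex W = 2 ^ (finrank ℤ (Additive W) + 1) := by
  have h1 : (W.map (powMonoidHom (α := M) 2)).subgroupOf W = (powMonoidHom (α := W) 2).range := by
    ext1
    simp [Subgroup.mem_subgroupOf, Subtype.ext_iff]
  have h2 : (powMonoidHom (α := W) 2).range.index =
      (nsmulAddMonoidHom (α := Additive W) 2).range.index := by
    rw [← Subgroup.index_toAddSubgroup]
    congr 1
  rw [Subgroup.relIndex, h1, h2, idx2, pow_succ]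
  congr 1
  have h3 : Nat.card (nsmulAddMonoidHom (α := Additive W) 2).ker = Nat.card (Fin 2) := by
    refine (Nat.card_congr (Equiv.ofBijective (fun i : Fin 2 =>
      (if i = 0 then ⟨0, AddSubgroup.zero_mem _⟩ else ⟨Additive.ofMul ⟨e, he⟩, ?_⟩ :
        (nsmulAddMonoidHom (α := Additive W) 2).ker)) ?_)).symm
    · rw [AddMonoidHom.mem_ker]
      apply Additive.toMul.injective
      apply Subtype.ext
      show e ^ 2 = 1
      rw [pow_two, he2]
    · constructor
      · intro i j hij
        fin_cases i <;> fin_cases j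
        · rfl
        · exfalso
          have h4 := congrArg (fun z : (nsmulAddMonoidHom (α := Additive W) 2).ker =>
            ((Additive.toMul z.1 : W) : M)) hij
          exact he1 h4.symm
        · exfalso
          have h4 := congrArg (fun z : (nsmulAddMonoidHom (α := Additive W) 2).ker =>
            ((Additive.toMul z.1 : W) : M)) hij
          exact he1 h4
        · rfl
      · rintro ⟨z, hz⟩
        have hz' : ((Additive.toMul z : W) : M) * ((Additive.toMul z : W) : M) = 1 := by
          rw [AddMonoidHom.mem_ker] at hz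
          have h4 := congrArg (fun z : Additive W => ((Additive.toMul z : W) : M)) hz
          have h5 : ((Additive.toMul z : W) : M) ^ 2 = 1 := h4
          rw [← pow_two, h5]
        rcases h _ hz' with h4 | h4
        · refine ⟨0, ?_⟩
          apply Subtype.ext
          apply Additive.toMul.injective
          apply Subtype.ext
          exact h4.symm
        · refine ⟨1, ?_⟩
          apply Subtype.ext
          apply Additive.toMul.injective
          apply Subtype.ext
          exact h4.symm
  rw [h3, Nat.card_eq_fintype_card, Fintype.card_fin]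

/-- the rank of the minus part -/
theorem finrank_minus {M : Type} [CommGroup M] (τ : M →* M) (U P N : Subgroup M)
    [Module.Finite ℤ (Additive U)] (hτ : ∀ x, τ (τ x) = x) (hU : ∀ x ∈ U, τ x ∈ U)
    (hP : ∀ x, x ∈ P ↔ x ∈ U ∧ τ x = x) (hN : ∀ x, x ∈ N ↔ x ∈ U ∧ τ x = x⁻¹) :
    Module.Finite ℤ (Additive N) ∧
      finrank ℤ (Additive N) + finrank ℤ (Additive P) = finrank ℤ (Additive U) := by
  -- inclusion of `N`
  let i : Additive N →ₗ[ℤ] Additive U :=
    (MonoidHom.toAdditive (Subgroup.inclusion (fun x hx => ((hN x).1 hx).1 : N ≤ U))).toIntLinearMap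
  have hi : Function.Injective i := by
    intro a b hab
    apply Additive.toMul.injective
    apply Subtype.ext
    exact congrArg (fun z : Additive U => ((Additive.toMul z : U) : M)) hab
  have hfinN : Module.Finite ℤ (Additive N) := Module.Finite.of_injective i hi
  refine ⟨hfinN, ?_⟩
  have hd : ∀ x : U, (x : M) / τ x ∈ N := by
    intro x
    rw [hN]
    refine ⟨U.div_mem x.2 (hU _ x.2), ?_⟩
    rw [map_div, hτ, inv_div]
  let g0 : U →* N :=
    { toFun := fun x => ⟨(x : M) / τ x, hd x⟩
      map_one' := by
        apply Subtype.ext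
        simp
      map_mul' := by
        intro x y
        apply Subtype.ext
        show ((x * y : U) : M) / τ ((x * y : U) : M) = ((x : M) / τ x) * ((y : M) / τ y)
        rw [Subgroup.coe_mul, map_mul, mul_div_mul_comm] }
  let g : Additive U →ₗ[ℤ] Additive N := (MonoidHom.toAdditive g0).toIntLinearMap
  have h1 := range_add_ker g
  have h2 : finrank ℤ (LinearMap.range g) = finrank ℤ (Additive N) := by
    apply finrank_sub
    intro x
    refine ⟨2, by norm_num, i x, ?_⟩
    apply Additive.toMul.injective
    apply Subtype.ext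
    have hx := (hN ((Additive.toMul x : N) : M)).1 (Additive.toMul x : N).2
    show ((Additive.toMul x : N) : M) / τ ((Additive.toMul x : N) : M) =
      ((Additive.toMul x : N) : M) ^ (2 : ℤ)
    rw [hx.2, div_inv_eq_mul]
    exact (zpow_two _).symm
  have h3 : finrank ℤ (LinearMap.ker g) = finrank ℤ (Additive P) := by
    let k0 : P →* U := Subgroup.inclusion (fun x hx => ((hP x).1 hx).1 : P ≤ U)
    let k : Additive P →ₗ[ℤ] Additive U := (MonoidHom.toAdditive k0).toIntLinearMap
    have hk : Function.Injective k := by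
      intro a b hab
      apply Additive.toMul.injective
      apply Subtype.ext
      exact congrArg (fun z : Additive U => ((Additive.toMul z : U) : M)) hab
    have hr : LinearMap.range k = LinearMap.ker g := by
      ext x
      constructor
      · rintro ⟨y, rfl⟩
        rw [LinearMap.mem_ker]
        apply Additive.toMul.injective
        apply Subtype.ext
        have hy := (hP ((Additive.toMul y : P) : M)).1 (Additive.toMul y : P).2
        show ((Additive.toMul y : P) : M) / τ ((Additive.toMul y : P) : M) = 1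
        rw [hy.2, div_self']
      · intro hx
        rw [LinearMap.mem_ker] at hx
        have h4 : ((Additive.toMul x : U) : M) / τ ((Additive.toMul x : U) : M) = 1 :=
          congrArg (fun z : Additive N => ((Additive.toMul z : N) : M)) hx
        refine ⟨Additive.ofMul ⟨((Additive.toMul x : U) : M), (hP _).2
          ⟨(Additive.toMul x : U).2, (div_eq_one.1 h4).symm⟩⟩, ?_⟩
        rfl
    rw [← hr]
    exact (LinearEquiv.ofInjective k hk).finrank_eq.symm
  omega

end Pool.Agent.K3h17.E2
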